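import Pool.Agent.W_4481e3_q87.GoR
import Pool.Agent.W_4481e3_tab.T1

/-!
Tree s31o1, data 1.
-/

namespace Pool.Agent.W_4481e3_rt.s31o1

open Pool.Agent.W_4481e3_q25.EvR

theorem k20 : ckO Pool.Agent.W_4481e3_tab.T1.tab 9888 10832 536870912 32768 46366 65536 21 3670016 524288 1572864 524288 508181872 536870912 28689040 57378079 268435456 268435456 16777216 16777216 66192 66192 0x100000c00001c200001c00001c01001c2100001c00001c01001c03001c12100001c00001c00001c2100001c00001c901001c2104003f21280f177a841701001c03001c03001c03001d21203001d03001c03001d03001d1203001c903001d203001c03001d21212199182de87a3c4704003f29928449e797457992104003f2104003f204003f04003f104003f204003f104003f21283f377ace771201001c01001c03000c201001c03000c21201001c01001c03001c203000c03000c03001d121846db7eb5572103001c03001c103001c03001c04003f205003f184c0e7ba2c7203001c05003f21203001c03001d103001d04003f20400ec05003f212104003f04003f104003f204003f04003f1b21285f807b529703000c03001c203001c03001c03001d12103001d0400ec105003f05003f04003f2120500ec0400ec0500ec210500ec05003f20500ec0700ec2121203001c0400ec05082c1203001d03001d103001d0500ec20500ec0500ec04008c0500ec21285fc67f59a7121050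0ec0500ec20500ec0500ec210500ec07003f0700ec120500ec0500ec10700ed06039c0700ed212877ce7e2a77120500ec0500ec20500ec0500ec0501dc2105039c05039c05039c21210500ec0500ec05039c210700ed0700ed07039c1207039c09039d2187c3c7e9997205039c06039c206039c06072c2107039c0801cd207039c0801cd21212876167efb2712862797e7cc7105003f04003f06003f1b21b206003f06003f105003f207003f06003f208071c08071c2106003fb1888f47e313721b288b127d91f709039d0801cd20801cd10801cd20801cd1b21b212879267cdc971212100001c00000c200001c00001c04003f100001c01001c927daa979cad7127e06f787d97101001c27f1c37aa1b704003f904003f103001c204003f903001d1217d2c27970f7204003f04003f9929921204003f06003f05003f306003f1212101001c03001c101001c203001d03001c03001c2103001c212100001c01001c00001c21204003f04003f06003f205003f1204003f04003f04003f1279c047e76b7103001d03001c203001d03001c2103001c203001d03001c204003f03001c2103001c03001c12127a4347b812704003f04003f04003f05003f212bb105003f05003f05003f06003f21208006fb107003f0700ec0700ed1206003f06003f2b09039d210700ed0700ec208071c0700ed2121212104003f05003f103001d204003f0400ec205003f0500ec2103001d0400ec12103001c03001c03000c2120500ec0500ec20500ec0500ec210500ec0500ec120500ec0500ec20500ec06039c0500ec210500ec210500ec0500ec0500ec21210400ec03001c20500ec0500ec03001d2103001d2121279b6e7d3897103001d03000c01001c2101001c203000c01001c20300ec01001c217b7737e91c701001c212100001c01001c00001c21212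 = true := by decide +kernel

end Pool.Agent.W_4481e3_rt.s31o1
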